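import Pool.Agent.H21.CV.Targets

/-!
# Rows INV and CHR of cvz_modules
-/

set_option autoImplicit false

namespace Pool.Agent.H66.CV

open Finset MvPolynomial Pool.Agent.H31.RZ Pool.Agent.H21.CV

private theorem MF_eq {R : Type*} [CommRing R] {m : ℕ} (F : MvPolynomial (Fin (m + 2)) ℤ)
    (s t : R) (p : Fin m → Polynomial R) (e : Fin m → ℕ) (S : Finset (Fin (m + 2) →₀ ℕ))
    (hS : F.support ⊆ S) (β γ : (i : Fin m) → Fin (e i)) :
    MF F s t p e β γ = ∑ μ ∈ S, ((F.coeff μ : ℤ) : R) * s ^ μ 0 * t ^ μ 1 *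
      ∏ i, ((cpm (p i) (e i)) ^ μ i.succ.succ) (β i) (γ i) := by
  unfold MF
  refine Finset.sum_subset hS fun μ _ hμ => ?_
  rw [MvPolynomial.notMem_support_iff.1 hμ]
  simp

private theorem MF_add {R : Type*} [CommRing R] {m : ℕ} (F G : MvPolynomial (Fin (m + 2)) ℤ)
    (s t : R) (p : Fin m → Polynomial R) (e : Fin m → ℕ) :
    MF (F + G) s t p e = MF F s t p e + MF G s t p e := by
  classical
  funext β γ
  have h1 := MF_eq (F + G) s t p e (F.support ∪ G.support) MvPolynomial.support_add β γ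
  have h2 := MF_eq F s t p e (F.support ∪ G.support) Finset.subset_union_left β γ
  have h3 := MF_eq G s t p e (F.support ∪ G.support) Finset.subset_union_right β γ
  rw [Matrix.add_apply, h1, h2, h3, ← Finset.sum_add_distrib]
  refine Finset.sum_congr rfl fun μ _ => ?_
  rw [MvPolynomial.coeff_add]
  push_cast
  ring

private theorem coeff_XX {m : ℕ} (G : MvPolynomial (Fin (m + 2)) ℤ) (μ : Fin (m + 2) →₀ ℕ)
    (h : μ ∈ (X 0 * X 1 * G : MvPolynomial (Fin (m + 2)) ℤ).support) :
    μ 0 ≠ 0 ∧ μ 1 ≠ 0 := by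
  classical
  rw [MvPolynomial.mem_support_iff] at h
  constructor
  · intro h0
    apply h
    rw [mul_assoc, MvPolynomial.coeff_X_mul', if_neg]
    rw [Finsupp.mem_support_iff]
    simpa using h0
  · intro h0
    apply h
    rw [mul_comm (X 0 : MvPolynomial (Fin (m + 2)) ℤ) (X 1), mul_assoc,
      MvPolynomial.coeff_X_mul', if_neg]
    rw [Finsupp.mem_support_iff]
    simpa using h0

theorem pf_INV : T_INV := by
  intro m F G p e
  constructor
  · rw [MF_add]
    have h : MF (X 0 * X 1 * G) (0 : ℤ) 1 p e = 0 := by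
      funext β γ
      unfold MF
      refine Finset.sum_eq_zero fun μ hμ => ?_
      rw [zero_pow (coeff_XX G μ hμ).1]
      simp
    rw [h, add_zero]
  · rw [MF_add]
    have h : MF (X 0 * X 1 * G) (1 : ℤ) 0 p e = 0 := by
      funext β γ
      unfold MF
      refine Finset.sum_eq_zero fun μ hμ => ?_
      rw [zero_pow (coeff_XX G μ hμ).2]
      simp
    rw [h, add_zero]

private theorem MF_mono {m : ℕ} (a : ℤ) (d : ℕ) (j : Fin (m + 2)) (hj : ∀ i : Fin m,
    j ≠ i.succ.succ) (s t : ℤ) (hst : s ^ (Finsupp.single j d) 0 * t ^ (Finsupp.single j d) 1 = 1)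
    (p : Fin m → Polynomial ℤ) (e : Fin m → ℕ) :
    MF (C a * X j ^ d) s t p e = a • (1 : Matrix _ _ ℤ) := by
  classical
  funext β γ
  have hs : (C a * X j ^ d : MvPolynomial (Fin (m + 2)) ℤ).support ⊆ {Finsupp.single j d} := by
    intro μ hμ
    rw [MvPolynomial.mem_support_iff, MvPolynomial.coeff_C_mul, MvPolynomial.coeff_X_pow] at hμ
    rw [Finset.mem_singleton]
    by_contra h
    apply hμ
    rw [if_neg (fun h' => h h'.symm), mul_zero]
  rw [MF_eq _ s t p e _ hs, Finset.sum_singleton, MvPolynomial.coeff_C_mul,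
    MvPolynomial.coeff_X_pow, if_pos rfl, mul_one]
  have h1 : ∀ i : Fin m, (Finsupp.single j d) i.succ.succ = 0 := by
    intro i
    rw [Finsupp.single_apply, if_neg (hj i)]
  have h2 : (∏ i, ((cpm (p i) (e i)) ^ (Finsupp.single j d) i.succ.succ) (β i) (γ i)) =
      (1 : Matrix ((i : Fin m) → Fin (e i)) ((i : Fin m) → Fin (e i)) ℤ) β γ := by
    rw [Finset.prod_congr rfl (g := fun i => (1 : Matrix (Fin (e i)) (Fin (e i)) ℤ) (β i) (γ i))
      (fun i _ => by rw [h1 i, pow_zero])]
    by_cases h : β = γ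
    · subst h
      simp
    · rw [Matrix.one_apply_ne h]
      have h2 : ∃ i, β i ≠ γ i := by
        by_contra h3
        push Not at h3
        exact h (funext h3)
      obtain ⟨i, hi⟩ := h2
      exact Finset.prod_eq_zero (Finset.mem_univ i) (Matrix.one_apply_ne hi)
  rw [h2, Matrix.smul_apply, smul_eq_mul, Int.cast_id]
  calc a * s ^ (Finsupp.single j d) 0 * t ^ (Finsupp.single j d) 1 *
        (1 : Matrix ((i : Fin m) → Fin (e i)) ((i : Fin m) → Fin (e i)) ℤ) β γ
      = a * (s ^ (Finsupp.single j d) 0 * t ^ (Finsupp.single j d) 1) *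
        (1 : Matrix ((i : Fin m) → Fin (e i)) ((i : Fin m) → Fin (e i)) ℤ) β γ := by ring
    _ = _ := by rw [hst, mul_one]

private theorem few {ι : Type} [Fintype ι] [DecidableEq ι] (M : Matrix ι ι ℤ) (c : ℤ)
    (hc : c ≠ 0) :
    {τ : ℤ | (M + (τ * c) • (1 : Matrix ι ι ℤ)).det = 0}.Finite ∧
      {τ : ℤ | (M + (τ * c) • (1 : Matrix ι ι ℤ)).det = 0}.ncard ≤ Fintype.card ι := by
  classical
  have hinj : Function.Injective fun τ : ℤ => -(τ * c) := by
    intro a b h
    simp only [neg_inj] at h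
    exact mul_right_cancel₀ hc h
  have hsub : ∀ τ ∈ {τ : ℤ | (M + (τ * c) • (1 : Matrix ι ι ℤ)).det = 0},
      (fun τ : ℤ => -(τ * c)) τ ∈ (M.charpoly.roots.toFinset : Set ℤ) := by
    intro τ hτ
    simp only [Set.mem_ofPred_eq] at hτ
    simp only [Finset.mem_coe, Multiset.mem_toFinset]
    rw [Polynomial.mem_roots M.charpoly_monic.ne_zero, Polynomial.IsRoot, Matrix.eval_charpoly]
    have h1 : Matrix.scalar ι (-(τ * c)) - M = -(M + (τ * c) • (1 : Matrix ι ι ℤ)) := by
      ext i j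
      simp only [Matrix.scalar_apply, Matrix.sub_apply, Matrix.neg_apply, Matrix.add_apply,
        Matrix.smul_apply, Matrix.diagonal_apply, Matrix.one_apply, smul_eq_mul]
      split_ifs <;> ring
    rw [h1, Matrix.det_neg, hτ, mul_zero]
  have hfin : {τ : ℤ | (M + (τ * c) • (1 : Matrix ι ι ℤ)).det = 0}.Finite :=
    Set.Finite.of_injOn hsub hinj.injOn (Finset.finite_toSet _)
  refine ⟨hfin, ?_⟩
  calc {τ : ℤ | (M + (τ * c) • (1 : Matrix ι ι ℤ)).det = 0}.ncard
      ≤ (M.charpoly.roots.toFinset : Set ℤ).ncard :=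
        Set.ncard_le_ncard_of_injOn _ hsub hinj.injOn (Finset.finite_toSet _)
    _ = M.charpoly.roots.toFinset.card := Set.ncard_coe_finset _
    _ ≤ Multiset.card M.charpoly.roots := Multiset.toFinset_card_le _
    _ ≤ M.charpoly.natDegree := Polynomial.card_roots' _
    _ = Fintype.card ι := Matrix.charpoly_natDegree_eq_dim M

theorem pf_CHR : T_CHR := by
  intro m d c F p e hc
  have hcard : Fintype.card ((i : Fin m) → Fin (e i)) = ∏ i, e i := by
    rw [Fintype.card_pi]
    simp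
  constructor
  · have h := few (MF F (0 : ℤ) 1 p e) c hc
    rw [hcard] at h
    have e1 : ∀ τ : ℤ, MF (F + C (τ * c) * X 1 ^ d) (0 : ℤ) 1 p e =
        MF F (0 : ℤ) 1 p e + (τ * c) • (1 : Matrix _ _ ℤ) := by
      intro τ
      have h1 : ∀ i : Fin m, (1 : Fin (m + 2)) ≠ i.succ.succ := by
        intro i h
        have := congrArg Fin.val h
        simp at this
      have h2 : (0 : ℤ) ^ (Finsupp.single (1 : Fin (m + 2)) d) 0 *
          1 ^ (Finsupp.single (1 : Fin (m + 2)) d) 1 = 1 := by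
        rw [Finsupp.single_apply, if_neg (by simp)]
        simp
      rw [MF_add, MF_mono (τ * c) d 1 h1 0 1 h2]
    simp only [e1]
    exact h
  · have h := few (MF F (1 : ℤ) 0 p e) c hc
    rw [hcard] at h
    have e1 : ∀ τ : ℤ, MF (F + C (τ * c) * X 0 ^ d) (1 : ℤ) 0 p e =
        MF F (1 : ℤ) 0 p e + (τ * c) • (1 : Matrix _ _ ℤ) := by
      intro τ
      have h1 : ∀ i : Fin m, (0 : Fin (m + 2)) ≠ i.succ.succ := by
        intro i h
        have := congrArg Fin.val h
        simp at this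
      have h2 : (1 : ℤ) ^ (Finsupp.single (0 : Fin (m + 2)) d) 0 *
          0 ^ (Finsupp.single (0 : Fin (m + 2)) d) 1 = 1 := by
        rw [Finsupp.single_apply (a' := 1), if_neg (by simp)]
        simp
      rw [MF_add, MF_mono (τ * c) d 0 h1 1 0 h2]
    simp only [e1]
    exact h

end Pool.Agent.H66.CV
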