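import Pool.Agent.H21.CV.Targets

/-!
# Rows CMP and KRN of cvz_modules
-/

set_option autoImplicit false

namespace Pool.Agent.H66.CV

open Finset MvPolynomial Pool.Agent.H31.RZ Pool.Agent.H21.CV

private theorem cmp_one (R : Type) [CommRing R] (p : Polynomial R) (e : ℕ) (η : R)
    (hm : p.Monic) (hd : p.natDegree = e) (h0 : p.eval η = 0) :
    Matrix.vecMul (fun a : Fin e => η ^ (a : ℕ)) (cpm p e) =
      fun a : Fin e => η * η ^ (a : ℕ) := by
  funext b
  simp only [Matrix.vecMul, dotProduct, cpm]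
  by_cases hb : (b : ℕ) + 1 < e
  · simp only [if_pos hb]
    rw [Finset.sum_eq_single (⟨(b : ℕ) + 1, hb⟩ : Fin e)]
    · simp only [if_true, mul_one]
      rw [pow_succ']
    · intro a _ ha
      rw [if_neg, mul_zero]
      intro h
      exact ha (Fin.ext h)
    · intro h
      exact absurd (Finset.mem_univ _) h
  · simp only [if_neg hb]
    have hbe : (b : ℕ) + 1 = e := by have := b.2; omega
    have h1 : p.eval η = ∑ i ∈ Finset.range e, p.coeff i * η ^ i + η ^ e := by
      rw [Polynomial.eval_eq_sum_range, Finset.sum_range_succ, hd]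
      have h2 : p.coeff e = 1 := by rw [← hd]; exact hm.coeff_natDegree
      rw [h2, one_mul]
    have h2 : ∑ i : Fin e, η ^ (i : ℕ) * -p.coeff i = -∑ i ∈ Finset.range e, p.coeff i * η ^ i := by
      rw [← Fin.sum_univ_eq_sum_range (fun i => p.coeff i * η ^ i) e, ← Finset.sum_neg_distrib]
      exact Finset.sum_congr rfl fun i _ => by ring
    rw [h2, ← pow_succ', hbe]
    rw [h0] at h1
    exact neg_eq_of_add_eq_zero_right h1.symm

theorem pf_CMP : T_CMP := by
  intro R _ p e k η _ hm hd h0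
  induction k with
  | zero => simp
  | succ k ih =>
    rw [pow_succ, ← Matrix.vecMul_vecMul, ih]
    have h1 : (fun a : Fin e => η ^ k * η ^ (a : ℕ)) = η ^ k • fun a : Fin e => η ^ (a : ℕ) := by
      funext a; simp
    rw [h1, Matrix.smul_vecMul, cmp_one R p e η hm hd h0]
    funext a
    simp only [Pi.smul_apply, smul_eq_mul]
    ring

theorem pf_KRN (hCMP : T_CMP) : T_KRN := by
  intro R _ m F s t p e η he hm hd h0
  funext γ
  simp only [Matrix.vecMul, dotProduct, MF]
  have h1 : ∀ β : (i : Fin m) → Fin (e i),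
      (∏ i, η i ^ (β i : ℕ)) * ∑ μ ∈ F.support, ((F.coeff μ : ℤ) : R) * s ^ μ 0 * t ^ μ 1 *
        ∏ i, ((cpm (p i) (e i)) ^ μ i.succ.succ) (β i) (γ i) =
      ∑ μ ∈ F.support, ((F.coeff μ : ℤ) : R) * s ^ μ 0 * t ^ μ 1 *
        ∏ i, (η i ^ (β i : ℕ) * ((cpm (p i) (e i)) ^ μ i.succ.succ) (β i) (γ i)) := by
    intro β
    rw [Finset.mul_sum]
    refine Finset.sum_congr rfl fun μ _ => ?_
    rw [Finset.prod_mul_distrib]
    ring
  rw [Finset.sum_congr rfl fun β _ => h1 β, Finset.sum_comm, Finset.sum_mul]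
  refine Finset.sum_congr rfl fun μ _ => ?_
  rw [← Finset.mul_sum]
  have h2 : ∑ β : (i : Fin m) → Fin (e i),
      ∏ i, (η i ^ (β i : ℕ) * ((cpm (p i) (e i)) ^ μ i.succ.succ) (β i) (γ i)) =
      ∏ i, ∑ b : Fin (e i), η i ^ (b : ℕ) * ((cpm (p i) (e i)) ^ μ i.succ.succ) b (γ i) := by
    rw [Finset.prod_univ_sum, Fintype.piFinset_univ]
  rw [h2]
  have h3 : ∀ i, ∑ b : Fin (e i), η i ^ (b : ℕ) *
      ((cpm (p i) (e i)) ^ μ i.succ.succ) b (γ i) = η i ^ μ i.succ.succ * η i ^ (γ i : ℕ) := by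
    intro i
    have := congrFun (hCMP R (p i) (e i) (μ i.succ.succ) (η i) (he i) (hm i) (hd i) (h0 i)) (γ i)
    simpa only [Matrix.vecMul, dotProduct] using this
  rw [Finset.prod_congr rfl fun i _ => h3 i, Finset.prod_mul_distrib]
  ring

end Pool.Agent.H66.CV
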