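import Pool.Agent.H21.CV.Targets
import Pool.Agent.H30.Vino.Divisor

/-!
# Rows CAN and DB of cvz_modules
-/

set_option autoImplicit false

namespace Pool.Agent.H66.CV

open Finset MvPolynomial Pool.Agent.H31.RZ Pool.Agent.H21.CV

theorem pf_DB : T_DB := by
  intro ε hε
  obtain ⟨k0, hk0⟩ := exists_nat_ge ((1 : ℝ) / ε)
  set k := k0 + 1 with hk
  have hkpos : 0 < k := Nat.succ_pos _
  obtain ⟨C₀, hC₀, hdiv⟩ := Pool.Agent.H30.Vino.card_divisors_pow_le k
  have hC₀1 : (1 : ℝ) ≤ C₀ := by exact_mod_cast hC₀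
  refine ⟨(C₀ : ℝ) ^ ((k : ℝ)⁻¹), Real.one_le_rpow hC₀1 (by positivity), ?_⟩
  intro n hn
  have hn1 : (1 : ℝ) ≤ n := by exact_mod_cast hn
  have h1 : ((#n.divisors : ℝ)) ^ k ≤ C₀ * (n : ℝ) := by
    exact_mod_cast hdiv n hn
  have h3 : ((#n.divisors : ℝ) ^ k) ^ ((k : ℝ)⁻¹) ≤ ((C₀ : ℝ) * (n : ℝ)) ^ ((k : ℝ)⁻¹) :=
    Real.rpow_le_rpow (by positivity) h1 (by positivity)
  rw [Real.pow_rpow_inv_natCast (by positivity) hkpos.ne',
    Real.mul_rpow (by positivity) (by positivity)] at h3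
  refine h3.trans ?_
  apply mul_le_mul_of_nonneg_left _ (by positivity)
  apply Real.rpow_le_rpow_of_exponent_le hn1
  have hkR : (0 : ℝ) < k := by exact_mod_cast hkpos
  rw [inv_eq_one_div, div_le_iff₀ hkR]
  have h4 : (1 : ℝ) ≤ k0 * ε := (div_le_iff₀ hε).1 hk0
  have h5 : (k : ℝ) = k0 + 1 := by rw [hk]; push_cast; ring
  rw [h5]
  nlinarith

/-- the divisors of an integer -/
private def DD (a : ℤ) : Finset ℤ :=
  (a.natAbs.divisors.image fun k : ℕ => (k : ℤ)) ∪ (a.natAbs.divisors.image fun k : ℕ => -(k : ℤ))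

private theorem DD_card (a : ℤ) : #(DD a) ≤ 2 * #a.natAbs.divisors := by
  unfold DD
  refine (Finset.card_union_le _ _).trans ?_
  have h1 := Finset.card_image_le (s := a.natAbs.divisors) (f := fun k : ℕ => (k : ℤ))
  have h2 := Finset.card_image_le (s := a.natAbs.divisors) (f := fun k : ℕ => -(k : ℤ))
  omega

private theorem DD_mem (a y : ℤ) (ha : a ≠ 0) (h : y ∣ a) : y ∈ DD a := by
  unfold DD
  rw [Finset.mem_union, Finset.mem_image, Finset.mem_image]
  have h1 : y.natAbs ∈ a.natAbs.divisors :=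
    Nat.mem_divisors.2 ⟨Int.natAbs_dvd_natAbs.2 h, Int.natAbs_ne_zero.2 ha⟩
  rcases Int.natAbs_eq y with h2 | h2
  · exact Or.inl ⟨y.natAbs, h1, h2.symm⟩
  · exact Or.inr ⟨y.natAbs, h1, h2.symm⟩

theorem pf_CAN (hSPM : T_SPM) : T_CAN := by
  classical
  intro m e w a b hw ha hb
  let T : Finset (Fin (m + 2) → ℤ) := (DD a ×ˢ DD b).biUnion fun q =>
    (Fintype.piFinset fun i => (sp (w i) q.1 q.2).roots.toFinset).image fun u =>
      (Fin.cons q.1 (Fin.cons q.2 u : Fin (m + 1) → ℤ) : Fin (m + 2) → ℤ)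
  have hsub : {y : Fin (m + 2) → ℤ | y 0 ∣ a ∧ y 1 ∣ b ∧
      ∀ i : Fin m, eval ![y 0, y 1, y i.succ.succ] (w i) = 0} ⊆ (T : Set (Fin (m + 2) → ℤ)) := by
    rintro y ⟨h0, h1, h2⟩
    simp only [T, Finset.coe_biUnion, Set.mem_iUnion, Finset.mem_coe]
    refine ⟨(y 0, y 1), Finset.mem_product.2 ⟨DD_mem a _ ha h0, DD_mem b _ hb h1⟩, ?_⟩
    rw [Finset.mem_image]
    refine ⟨fun i => y i.succ.succ, ?_, ?_⟩
    · rw [Fintype.mem_piFinset]
      intro i
      have hs := hSPM (w i) (e i) (y 0) (y 1) (hw i).2.1 (hw i).2.2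
      rw [Multiset.mem_toFinset, Polynomial.mem_roots hs.1.ne_zero, Polynomial.IsRoot]
      rw [hs.2.2.1]
      exact h2 i
    · funext j
      refine Fin.cases ?_ (fun j => ?_) j
      · rfl
      · refine Fin.cases ?_ (fun j => ?_) j
        · rfl
        · rfl
  have hcard : #T ≤ (2 * #a.natAbs.divisors) * (2 * #b.natAbs.divisors) * ∏ i, e i := by
    have h1 : #T ≤ #(DD a ×ˢ DD b) * ∏ i, e i := by
      refine Finset.card_biUnion_le_card_mul _ _ _ fun q _ => ?_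
      refine Finset.card_image_le.trans ?_
      rw [Fintype.card_piFinset]
      refine Finset.prod_le_prod' fun i _ => ?_
      have hs := hSPM (w i) (e i) q.1 q.2 (hw i).2.1 (hw i).2.2
      calc #(sp (w i) q.1 q.2).roots.toFinset ≤ Multiset.card (sp (w i) q.1 q.2).roots :=
            Multiset.toFinset_card_le _
        _ ≤ (sp (w i) q.1 q.2).natDegree := Polynomial.card_roots' _
        _ = e i := hs.2.1
    refine h1.trans (Nat.mul_le_mul_right _ ?_)
    rw [Finset.card_product]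
    exact Nat.mul_le_mul (DD_card a) (DD_card b)
  refine ⟨(Finset.finite_toSet T).subset hsub, ?_⟩
  refine (Set.ncard_le_ncard hsub (Finset.finite_toSet T)).trans ?_
  rw [Set.ncard_coe_finset]
  exact hcard

end Pool.Agent.H66.CV
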